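import Mathlib
import Pool.Agent.Helper697.RepFinal

/-!
Fast verification of foldings of polyominoes along grid lines, and of partitions into pieces.
-/

namespace Pool.Agent.Y211.RC

open Pool.Agent.Helper697.Rep

/-- decoding of a lattice point of space -/
def dec (v : ℕ) : ℤ × ℤ × ℤ :=
  (((v % 32 : ℕ) : ℤ), ((v / 32 % 32 : ℕ) : ℤ), ((v / 1024 : ℕ) : ℤ))

/-- table lookup -/
def nt (w : ℕ) (x0 y0 : ℤ) (T : ℕ) (p : ℤ × ℤ) : ℤ × ℤ × ℤ :=
  dec (T / 2 ^ (15 * ((p.1 - x0).toNat + w * (p.2 - y0).toNat)) % 32768)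

/-- code of a doubled centre -/
def cc (m : ℤ × ℤ × ℤ) : ℕ := m.1.toNat + 64 * m.2.1.toNat + 4096 * m.2.2.toNat

/-- a coded folding onto the cube of edge `n`: a table and the codes of the centres -/
structure Rec where
  n : ℕ
  w : ℕ
  x0 : ℤ
  y0 : ℤ
  T : ℕ
  K : List ℕ

def Rec.F (R : Rec) : ℤ × ℤ → ℤ × ℤ × ℤ := nt R.w R.x0 R.y0 R.T

def nodupB : List ℕ → Bool
  | [] => true
  | a :: l => l.all (fun b => !(Nat.beq a b)) && nodupB l

def eqB : List ℕ → List ℕ → Bool
  | [], [] => true
  | a :: l, b :: m => Nat.beq a b && eqB l m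
  | [], _ :: _ => false
  | _ :: _, [] => false

lemma eqB_eq : ∀ {l m : List ℕ}, eqB l m = true → l = m
  | [], [], _ => rfl
  | a :: l, b :: m, h => by
    simp only [eqB, Bool.and_eq_true] at h
    rw [Nat.eq_of_beq_eq_true h.1, eqB_eq h.2]
  | [], _ :: _, h => by simp [eqB] at h
  | _ :: _, [], h => by simp [eqB] at h

lemma nodupB_nodup : ∀ {l : List ℕ}, nodupB l = true → l.Nodup
  | [], _ => List.nodup_nil
  | a :: l, h => by
    simp only [nodupB, Bool.and_eq_true, List.all_eq_true, Bool.not_eq_true'] at h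
    refine List.nodup_cons.mpr ⟨fun ha => ?_, nodupB_nodup h.2⟩
    have h1 := h.1 a ha
    rw [Nat.beq_refl] at h1
    exact absurd h1 (by simp)

/-- the folding `R` folds the cells of `L` to a cube -/
def okB (R : Rec) (L : List (ℤ × ℤ)) : Bool :=
  connB L && ((L.all fun c => decide (GoodSq (R.n : ℤ) (R.F c) (R.F (c.1 + 1, c.2))
    (R.F (c.1, c.2 + 1)) (R.F (c.1 + 1, c.2 + 1)))) &&
  (eqB (L.map fun c => cc (ctr R.F c)) R.K && (nodupB R.K &&
  (Nat.beq L.length (6 * R.n ^ 2) && Nat.blt 0 R.n))))

lemma mem_cenSet {n : ℕ} {m : ℤ × ℤ × ℤ} (hm : IsCtr n m) : m ∈ cenSet n := by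
  obtain ⟨x, y, z⟩ := m
  obtain ⟨⟨r1, r2, r3, r4, r5, r6⟩, h⟩ := hm
  simp only at r1 r2 r3 r4 r5 r6 h
  unfold cenSet
  rw [Finset.mem_image]
  rcases h with ⟨h | h, h1, h2⟩ | ⟨h1, h | h, h2⟩ | ⟨h1, h2, h | h⟩
  · refine ⟨(3, (y / 2).toNat, (z / 2).toNat), ?_, ?_⟩
    · simp only [Finset.mem_product, Finset.mem_range]; omega
    · simp only [cen]; norm_num; omega
  · refine ⟨(1, (y / 2).toNat, (z / 2).toNat), ?_, ?_⟩
    · simp only [Finset.mem_product, Finset.mem_range]; omega
    · simp only [cen]; norm_num; omega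
  · refine ⟨(0, (x / 2).toNat, (z / 2).toNat), ?_, ?_⟩
    · simp only [Finset.mem_product, Finset.mem_range]; omega
    · simp only [cen]; norm_num; omega
  · refine ⟨(2, (x / 2).toNat, (z / 2).toNat), ?_, ?_⟩
    · simp only [Finset.mem_product, Finset.mem_range]; omega
    · simp only [cen]; norm_num; omega
  · refine ⟨(5, (x / 2).toNat, (y / 2).toNat), ?_, ?_⟩
    · simp only [Finset.mem_product, Finset.mem_range]; omega
    · simp only [cen]; norm_num; omega
  · refine ⟨(4, (x / 2).toNat, (y / 2).toNat), ?_, ?_⟩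
    · simp only [Finset.mem_product, Finset.mem_range]; omega
    · simp only [cen]; norm_num; omega

lemma okB_nodup {R : Rec} {L : List (ℤ × ℤ)} (h : okB R L = true) : L.Nodup := by
  simp only [okB, Bool.and_eq_true] at h
  obtain ⟨_, _, h3, h4, _, _⟩ := h
  have h5 := nodupB_nodup h4
  rw [← eqB_eq h3] at h5
  exact h5.of_map _

lemma okB_piece {R : Rec} {L : List (ℤ × ℤ)} (h : okB R L = true) : Piece L.toFinset := by
  have hnd := okB_nodup h
  simp only [okB, Bool.and_eq_true, List.all_eq_true, decide_eq_true_eq] at h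
  obtain ⟨h1, h2, h3, h4, h5, h6⟩ := h
  have hK := nodupB_nodup h4
  rw [← eqB_eq h3] at hK
  have hn : 0 < R.n := by
    simp at h6
    omega
  have hlen := Nat.eq_of_beq_eq_true h5
  have hinj : Set.InjOn (ctr R.F) (L.toFinset : Set (ℤ × ℤ)) := by
    intro c hc d hd hcd
    exact List.inj_on_of_nodup_map hK (by simpa using hc) (by simpa using hd)
      (by simp only [hcd])
  have hsub : L.toFinset.image (ctr R.F) ⊆ cenSet R.n := by
    intro m hm
    obtain ⟨c, hc, rfl⟩ := Finset.mem_image.mp hm
    exact mem_cenSet (h2 c (by simpa using hc)).isCtr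
  have heq : L.toFinset.image (ctr R.F) = cenSet R.n := by
    apply Finset.eq_of_subset_of_card_le hsub
    rw [card_cenSet hn, Finset.card_image_of_injOn hinj, List.toFinset_card_of_nodup hnd, hlen]
  refine ⟨polyomino_of_list L h1, R.n, R.F, by exact_mod_cast hn, ?_, ?_, ?_⟩
  · intro c hc
    exact h2 c (by simpa using hc)
  · intro c hc d hd hcd
    exact hinj hc hd hcd
  · intro m hm
    have h7 := mem_cenSet hm
    rw [← heq] at h7
    obtain ⟨c, hc, hcm⟩ := Finset.mem_image.mp h7
    exact ⟨c, hc, hcm⟩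

/-! ### Partitions -/

/-- a region: a list of coded pieces, and possibly a coded folding of the whole region -/
structure Reg where
  hx : List (Rec × List (ℤ × ℤ))
  big : Option Rec

def Reg.cells (r : Reg) : List (ℤ × ℤ) := (r.hx.map Prod.snd).flatten

def Reg.okB (r : Reg) : Bool :=
  (r.hx.all fun h => RC.okB h.1 h.2) &&
    (match r.big with
    | none => true
    | some R => RC.okB R r.cells)

def Reg.vals (r : Reg) : List ℕ :=
  r.hx.length :: (match r.big with
    | none => []
    | some _ => [1])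

lemma part_append {a b : ℕ} {L M : List (ℤ × ℤ)} (h : Part a L.toFinset) (h' : Part b M.toFinset)
    (hn : (L ++ M).Nodup) : Part (a + b) (L ++ M).toFinset := by
  rw [List.toFinset_append]
  refine h.union h' ?_
  rw [List.disjoint_toFinset_iff_disjoint]
  exact (List.nodup_append'.mp hn).2.2

lemma part_pieces : ∀ (H : List (Rec × List (ℤ × ℤ))), (∀ h ∈ H, RC.okB h.1 h.2 = true) →
    ((H.map Prod.snd).flatten).Nodup → Part H.length ((H.map Prod.snd).flatten).toFinset
  | [], _, _ => Part.zero
  | h :: H, h1, h2 => by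
    simp only [List.map_cons, List.flatten_cons] at h2 ⊢
    have h3 := part_pieces H (fun k hk => h1 k (List.mem_cons_of_mem _ hk))
      (List.nodup_append'.mp h2).2.1
    have h4 := part_append (Part.single (okB_piece (h1 h List.mem_cons_self))) h3 h2
    rw [List.length_cons, add_comm]
    exact h4

lemma reg_part {r : Reg} (h : r.okB = true) (hn : r.cells.Nodup) :
    ∀ k ∈ r.vals, Part k r.cells.toFinset := by
  simp only [Reg.okB, Bool.and_eq_true, List.all_eq_true] at h
  obtain ⟨h1, h2⟩ := h
  intro k hk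
  rcases List.mem_cons.mp hk with rfl | hk
  · exact part_pieces r.hx h1 hn
  · cases hb : r.big with
    | none => rw [hb] at hk; simp at hk
    | some R =>
      rw [hb] at hk h2
      simp only [List.mem_singleton] at hk
      subst hk
      exact Part.single (okB_piece h2)

def allCells (l : List Reg) : List (ℤ × ℤ) := (l.map Reg.cells).flatten

def allVals : List Reg → List ℕ
  | [] => [0]
  | r :: l => (r.vals.flatMap fun a => (allVals l).map (fun b => a + b)).dedup

lemma all_part : ∀ (l : List Reg), (∀ r ∈ l, r.okB = true) → (allCells l).Nodup →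
    ∀ k ∈ allVals l, Part k (allCells l).toFinset
  | [], _, _, k, hk => by
    simp only [allVals, List.mem_singleton] at hk
    subst hk
    exact Part.zero
  | r :: l, h1, h2, k, hk => by
    simp only [allVals, List.mem_dedup, List.mem_flatMap, List.mem_map] at hk
    obtain ⟨a, ha, b, hb, rfl⟩ := hk
    have e : allCells (r :: l) = r.cells ++ allCells l := by simp [allCells]
    rw [e] at h2 ⊢
    exact part_append (reg_part (h1 r List.mem_cons_self) (List.nodup_append'.mp h2).1 a ha)
      (all_part l (fun k hk => h1 k (List.mem_cons_of_mem _ hk)) (List.nodup_append'.mp h2).2.1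
        b hb) h2

/-- a certified rep-cube with flexible partitions -/
theorem data_rep {R : Rec} {l : List Reg} (h : RC.okB R (allCells l) = true)
    (hl : (l.all fun r => r.okB) = true) {k : ℕ} (hk : k ∈ allVals l) :
    ∃ P, IsRepCube k P :=
  ⟨(allCells l).toFinset, (all_part l (by simpa using hl) (okB_nodup h) k hk).repCube
    (okB_piece h)⟩

end Pool.Agent.Y211.RC
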