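import Mathlib
import Pool.Agent.Y211.RC.Check
import Pool.Agent.Y211.RC.DataT

/-!
Packings of the block cross by nets of larger cubes, and the resulting orders.
-/

namespace Pool.Agent.Y211.RC

open Pool.Agent.Helper697.Rep

def codeB (L : List (ℤ × ℤ)) : Bool :=
  nodupB (L.map fun c => (c.1 + 64).toNat + 256 * (c.2 + 64).toNat)

lemma codeB_nodup {L : List (ℤ × ℤ)} (h : codeB L = true) : L.Nodup :=
  (nodupB_nodup h).of_map _

lemma eq_blocks {L : List (ℤ × ℤ)} {S : Finset (ℤ × ℤ)} (hn : L.Nodup)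
    (h1 : ∀ c ∈ L, blk c ∈ S) (h2 : L.length = 36 * S.card) : L.toFinset = blocks S := by
  apply Finset.eq_of_subset_of_card_le
  · intro c hc
    rw [mem_blocks]
    exact h1 c (by simpa using hc)
  · rw [card_blocks, List.toFinset_card_of_nodup hn, h2]

/-- three blocks -/
def tA : Finset (ℤ × ℤ) := {(0, 0), (1, 0), (0, 1)}

def tB : Finset (ℤ × ℤ) := {(0, 0), (0, 1), (1, 1)}

def hZ : Finset (ℤ × ℤ) := {(3, 1), (4, 1), (5, 1), (5, 0), (6, 0), (7, 0)}

lemma part_tA : Part 10 (blocks tA) := by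
  have hn : (allCells taD).Nodup := codeB_nodup (by decide +kernel)
  have h := all_part taD (by simpa using ta_regs) hn 10 (by decide +kernel)
  rwa [eq_blocks hn (S := tA) (by decide +kernel) (by decide +kernel)] at h

lemma part_tB : Part 10 (blocks tB) := by
  have hn : (allCells tbD).Nodup := codeB_nodup (by decide +kernel)
  have h := all_part tbD (by simpa using tb_regs) hn 10 (by decide +kernel)
  rwa [eq_blocks hn (S := tB) (by decide +kernel) (by decide +kernel)] at h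

lemma part_hZ : Part 1 (blocks hZ) := by
  have hn : hzL.Nodup := okB_nodup hz_ok
  have h := Part.single (okB_piece hz_ok)
  rwa [eq_blocks hn (S := hZ) (by decide +kernel) (by decide +kernel)] at h

lemma pack {n : ℕ} (hn : 0 < n) {T : Finset (ℤ × ℤ)} (hT : T ⊆ Ct n) {p : ℕ}
    (hp : Part p (blocks T)) {a : ℕ} (ha : a ≤ 6 * n ^ 2 - T.card) :
    IsRepCube (6 * (6 * n ^ 2 - T.card) - 3 * a + p) (blocks (Ct n)) := by
  have hc : (Ct n \ T).card = 6 * n ^ 2 - T.card := by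
    rw [Finset.card_sdiff_of_subset hT, card_Ct]
  have h1 := part_blocks (Ct n \ T) a (by rw [hc]; exact ha)
  rw [hc] at h1
  have h2 := h1.union hp (blocks_disjoint Finset.sdiff_disjoint)
  rw [← blocks_union, Finset.sdiff_union_of_subset hT] at h2
  exact h2.repCube (piece_cube hn)

/-- a packing: a set of blocks with a number of pieces -/
def Pk (n : ℕ) (q p : ℕ) : Prop :=
  ∃ T : Finset (ℤ × ℤ), T ⊆ Ct n ∧ T.card = q ∧ Part p (blocks T)

lemma Pk.rep {n q p : ℕ} (h : Pk n q p) (hn : 0 < n) {a : ℕ} (ha : a ≤ 6 * n ^ 2 - q) :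
    ∃ P, IsRepCube (6 * (6 * n ^ 2 - q) - 3 * a + p) P := by
  obtain ⟨T, h1, rfl, h2⟩ := h
  exact ⟨_, pack hn h1 h2 ha⟩

lemma part_or {b : ℕ} (hb : b ≤ 1) {S : Finset (ℤ × ℤ)} {p q : ℕ} (hq : S.card = q)
    (h : Part p (blocks S)) :
    ∃ T ⊆ S, T.card = q * b ∧ Part (p * b) (blocks T) := by
  interval_cases b
  · refine ⟨∅, Finset.empty_subset _, by simp, ?_⟩
    have : blocks ∅ = ∅ := by simp [blocks]
    rw [this, mul_zero]; exact Part.zero
  · exact ⟨S, Finset.Subset.refl _, by rw [hq, mul_one], by rwa [mul_one]⟩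

lemma part_two {S S' T T' : Finset (ℤ × ℤ)} {p p' : ℕ} (hd : Disjoint S S') (h : T ⊆ S)
    (h' : T' ⊆ S') (hp : Part p (blocks T)) (hp' : Part p' (blocks T')) :
    (T ∪ T').card = T.card + T'.card ∧ Part (p + p') (blocks (T ∪ T')) := by
  have hd' : Disjoint T T' := hd.mono h h'
  refine ⟨Finset.card_union_of_disjoint hd', ?_⟩
  rw [blocks_union]
  exact hp.union hp' (blocks_disjoint hd')

lemma Ct_filter_mem (n : ℕ) (S : List (ℤ × ℤ)) (h : ∀ c ∈ S,
    (0 ≤ c.1 ∧ c.1 < 4 * (n : ℤ) ∧ 0 ≤ c.2 ∧ c.2 < n) ∨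
      ((n : ℤ) ≤ c.1 ∧ c.1 < 2 * n ∧ -(n : ℤ) ≤ c.2 ∧ c.2 < 2 * n)) : S.toFinset ⊆ Ct n := by
  rintro ⟨i, j⟩ hc
  have h1 := h (i, j) (by simpa using hc)
  rw [mem_Ct]
  simp only at h1
  omega

/-- four disjoint sets of blocks give packings with independent choices -/
lemma four {n : ℕ} {A B C D : Finset (ℤ × ℤ)} (hA : A ⊆ Ct n) (hB : B ⊆ Ct n) (hC : C ⊆ Ct n)
    (hD : D ⊆ Ct n) (h1 : Disjoint A B) (h2 : Disjoint (A ∪ B) C) (h3 : Disjoint (A ∪ B ∪ C) D)
    (cA : A.card = 6) (cB : B.card = 6) (cC : C.card = 3) (cD : D.card = 3)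
    (pA : Part 1 (blocks A)) (pB : Part 1 (blocks B)) (pC : Part 10 (blocks C))
    (pD : Part 10 (blocks D)) {b c : ℕ} (hb : b ≤ 2) (hc : c ≤ 2) :
    Pk n (6 * b + 3 * c) (b + 10 * c) := by
  obtain ⟨b1, b2, hb1, hb2, rfl⟩ : ∃ b1 b2, b1 ≤ 1 ∧ b2 ≤ 1 ∧ b = b1 + b2 := by
    interval_cases b
    · exact ⟨0, 0, by omega, by omega, rfl⟩
    · exact ⟨1, 0, by omega, by omega, rfl⟩
    · exact ⟨1, 1, by omega, by omega, rfl⟩
  obtain ⟨c1, c2, hc1, hc2, rfl⟩ : ∃ c1 c2, c1 ≤ 1 ∧ c2 ≤ 1 ∧ c = c1 + c2 := by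
    interval_cases c
    · exact ⟨0, 0, by omega, by omega, rfl⟩
    · exact ⟨1, 0, by omega, by omega, rfl⟩
    · exact ⟨1, 1, by omega, by omega, rfl⟩
  obtain ⟨A', sA, kA, qA⟩ := part_or hb1 cA pA
  obtain ⟨B', sB, kB, qB⟩ := part_or hb2 cB pB
  obtain ⟨C', sC, kC, qC⟩ := part_or hc1 cC pC
  obtain ⟨D', sD, kD, qD⟩ := part_or hc2 cD pD
  have e1 := part_two h1 sA sB qA qB
  have e2 := part_two h2 (Finset.union_subset_union sA sB) sC e1.2 qC
  have e3 := part_two h3 (Finset.union_subset_union (Finset.union_subset_union sA sB) sC) sD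
    e2.2 qD
  refine ⟨A' ∪ B' ∪ C' ∪ D', ?_, ?_, ?_⟩
  · exact Finset.union_subset (Finset.union_subset (Finset.union_subset (sA.trans hA)
      (sB.trans hB)) (sC.trans hC)) (sD.trans hD)
  · rw [e3.1, e2.1, e1.1, kA, kB, kC, kD]; ring
  · have e : 1 * b1 + 1 * b2 + 10 * c1 + 10 * c2 = b1 + b2 + 10 * (c1 + c2) := by ring
    rw [← e]; exact e3.2

/-- the cross of six blocks as an explicit set -/
def kr (a b : ℤ) : Finset (ℤ × ℤ) := {(a, b), (a + 1, b), (a + 2, b), (a + 3, b), (a + 1, b + 1),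
  (a + 1, b - 1)}

lemma kr_eq (a b : ℤ) : shift (a, b) (Ct 1) = kr a b := by
  ext ⟨i, j⟩
  rw [mem_K, mem_Ct]
  simp only [kr, Finset.mem_insert, Finset.mem_singleton, Prod.mk.injEq]
  omega

lemma part_kr (a b : ℤ) : Part 1 (blocks (kr a b)) := by
  rw [← kr_eq]; exact part_K _

def tr (a b : ℤ) : Finset (ℤ × ℤ) := {(a, b), (a + 1, b), (a, b + 1)}

lemma tr_eq (a b : ℤ) : shift (a, b) tA = tr a b := by
  ext ⟨i, j⟩
  rw [mem_shift]
  simp only [tA, tr, Finset.mem_insert, Finset.mem_singleton, Prod.mk.injEq, Prod.mk_sub_mk]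
  omega

lemma part_tr (a b : ℤ) : Part 10 (blocks (tr a b)) := by
  rw [← tr_eq, blocks_shift]; exact part_tA.shift _

lemma pk_one {c : ℕ} (hc : c ≤ 1) : Pk 1 (3 * c) (10 * c) := by
  obtain ⟨T, h1, h2, h3⟩ := part_or hc (S := tr 1 0) (q := 3) (by decide) (part_tr 1 0)
  refine ⟨T, h1.trans ?_, h2, h3⟩
  rintro ⟨i, j⟩ h
  simp only [tr, Finset.mem_insert, Finset.mem_singleton, Prod.mk.injEq] at h
  rw [mem_Ct]; push_cast; omega

lemma pk_two {b c : ℕ} (hb : b ≤ 2) (hc : c ≤ 2) : Pk 2 (6 * b + 3 * c) (b + 10 * c) := by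
  refine four (A := kr 1 0) (B := hZ) (C := tr 2 2) (D := tB) ?_ ?_ ?_ ?_ (by decide) (by decide)
    (by decide) (by decide) (by decide) (by decide) (by decide) (part_kr _ _) part_hZ
    (part_tr _ _) part_tB hb hc
  all_goals
    rintro ⟨i, j⟩ h
    simp only [kr, hZ, tr, tB, Finset.mem_insert, Finset.mem_singleton, Prod.mk.injEq] at h
    rw [mem_Ct]; push_cast; omega

lemma pk_three {b c : ℕ} (hb : b ≤ 2) (hc : c ≤ 2) : Pk 3 (6 * b + 3 * c) (b + 10 * c) := by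
  refine four (A := kr 0 1) (B := kr 4 1) (C := tr 3 3) (D := tr 3 (-3)) ?_ ?_ ?_ ?_ (by decide)
    (by decide) (by decide) (by decide) (by decide) (by decide) (by decide) (part_kr _ _)
    (part_kr _ _) (part_tr _ _) (part_tr _ _) hb hc
  all_goals
    rintro ⟨i, j⟩ h
    simp only [kr, tr, Finset.mem_insert, Finset.mem_singleton, Prod.mk.injEq] at h
    rw [mem_Ct]; push_cast; omega

lemma find_two : ∀ k ∈ Finset.Icc 38 128, ∃ b ∈ Finset.range 3, ∃ c ∈ Finset.range 3,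
    (3 ∣ 144 - 35 * b - 8 * c - k) ∧ k + 35 * b + 8 * c ≤ 144 ∧
      144 ≤ k + 35 * b + 8 * c + 3 * (24 - 6 * b - 3 * c) := by
  decide +kernel

lemma find_three : ∀ k ∈ Finset.Icc 128 238, ∃ b ∈ Finset.range 3, ∃ c ∈ Finset.range 3,
    (3 ∣ 324 - 35 * b - 8 * c - k) ∧ k + 35 * b + 8 * c ≤ 324 ∧
      324 ≤ k + 35 * b + 8 * c + 3 * (54 - 6 * b - 3 * c) := by
  decide +kernel

theorem mid_two (k : ℕ) (h1 : 38 ≤ k) (h2 : k ≤ 128) : ∃ P, IsRepCube k P := by
  obtain ⟨b, hb, c, hc, h3, h4, h5⟩ := find_two k (by simp; omega)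
  simp only [Finset.mem_range] at hb hc
  have h := (pk_two (b := b) (c := c) (by omega) (by omega)).rep (by norm_num)
    (a := (144 - 35 * b - 8 * c - k) / 3) (by omega)
  have e : 6 * (6 * 2 ^ 2 - (6 * b + 3 * c)) - 3 * ((144 - 35 * b - 8 * c - k) / 3) +
      (b + 10 * c) = k := by omega
  rw [e] at h
  exact h

theorem mid_three (k : ℕ) (h1 : 128 ≤ k) (h2 : k ≤ 238) : ∃ P, IsRepCube k P := by
  obtain ⟨b, hb, c, hc, h3, h4, h5⟩ := find_three k (by simp; omega)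
  simp only [Finset.mem_range] at hb hc
  have h := (pk_three (b := b) (c := c) (by omega) (by omega)).rep (by norm_num)
    (a := (324 - 35 * b - 8 * c - k) / 3) (by omega)
  have e : 6 * (6 * 3 ^ 2 - (6 * b + 3 * c)) - 3 * ((324 - 35 * b - 8 * c - k) / 3) +
      (b + 10 * c) = k := by omega
  rw [e] at h
  exact h

/-- orders from one cross of six blocks -/
theorem low_one (a c : ℕ) (hc : c ≤ 1) (ha : a ≤ 6 - 3 * c) :
    ∃ P, IsRepCube (36 - 8 * c - 3 * a) P := by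
  have h := (pk_one hc).rep one_pos (a := a) (by omega)
  have e : 6 * (6 * 1 ^ 2 - 3 * c) - 3 * a + 10 * c = 36 - 8 * c - 3 * a := by omega
  rw [e] at h
  exact h

theorem high (k : ℕ) (h1 : 38 ≤ k) : ∃ P, IsRepCube k P := by
  by_cases h2 : k ≤ 128
  · exact mid_two k h1 h2
  by_cases h3 : k ≤ 238
  · exact mid_three k (by omega) h3
  by_cases h4 : 287 < k
  · exact rep_cubes k h4
  · by_cases h5 : k % 3 = 2 ∧ 254 < k
    · have h := rep_orders (n := 4) (by omega) (a := (506 - k) / 3) (b := 2) (by omega) (by omega)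
      have e : 6 * (6 * 4 ^ 2 - 6 * 2) - 3 * ((506 - k) / 3) + 2 = k := by omega
      rw [e] at h
      exact ⟨_, h⟩
    · have h := rep_orders (n := 3) (by omega) (a := (324 - 35 * (k % 3) - k) / 3) (b := k % 3)
        (by omega) (by omega)
      have e : 6 * (6 * 3 ^ 2 - 6 * (k % 3)) - 3 * ((324 - 35 * (k % 3) - k) / 3) + k % 3 = k := by
        omega
      rw [e] at h
      exact ⟨_, h⟩

end Pool.Agent.Y211.RC
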